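import Mathlib

/-!
# Sequential OWA rules under which free-riding is never harmful

The rule with `α² = (1, c)`, `0 < c < 1`, and `αⁿ` constant for `n ≠ 2`. For two voters `v`, `u`,
compare the run of the rule on the true ballots with the run after `v` free-rides. In the second run
`v` counts with one approval less than she really has. By induction on the issues the two runs are
always in one of two states: either the true satisfactions in both runs agree, or `v` has one more and
`u` has one less in the second run. If no candidate is approved by both voters then the rule prefers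
the voter who (according to the ballots) has less, and this leads only from one of these states to
the other.
-/

set_option autoImplicit false

open Finset

namespace Pool.Agent.Results.MP_57045c_lc.TwoVotersNeverHarmful

/-- An election with `n` voters and `k` issues: for each issue a finite nonempty set of candidates
with a linear order used for breaking ties, and for each issue and voter a set of approved
candidates. -/
structure Election (n k : ℕ) where
  /-- the candidates of an issue -/
  C : Fin k → Type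
  [fin : ∀ i, Fintype (C i)]
  [ne : ∀ i, Nonempty (C i)]
  [ord : ∀ i, LinearOrder (C i)]
  /-- the approval ballots -/
  A : (i : Fin k) → Fin n → Set (C i)

attribute [instance] Election.fin Election.ne Election.ord

variable {n k : ℕ}

open Classical in
/-- The satisfaction of the voter `v` counted over the first `t` issues, for the ballots `A`. -/
noncomputable def satUpTo {C : Fin k → Type} (A : (i : Fin k) → Fin n → Set (C i))
    (w : (i : Fin k) → C i) (t : ℕ) (v : Fin n) : ℕ :=
  (univ.filter fun j : Fin k => (j : ℕ) < t ∧ w j ∈ A j v).card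

/-- The satisfaction of the voter `v`. -/
noncomputable def sat {C : Fin k → Type} (A : (i : Fin k) → Fin n → Set (C i))
    (w : (i : Fin k) → C i) (v : Fin n) : ℕ := satUpTo A w k v

/-- `α · s` where `s` is the vector `f` of satisfactions sorted increasingly. -/
noncomputable def owa (α : Fin n → ℝ) (f : Fin n → ℕ) : ℝ :=
  ∑ j, α j * (f (Tuple.sort f j) : ℝ)

open Classical in
/-- The score of the candidate `c` for the issue `i`, after the issues before `i` were decided as
in `w`. -/
noncomputable def score (α : Fin n → ℝ) {C : Fin k → Type} (A : (i : Fin k) → Fin n → Set (C i))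
    (w : (i : Fin k) → C i) (i : Fin k) (c : C i) : ℝ :=
  owa α fun v => satUpTo A w i v + if c ∈ A i v then 1 else 0

/-- `w` is the outcome of the sequential `α`-OWA rule for the ballots `A`: for each issue `i` the
candidate `w i` maximizes the score given the previous decisions, and among the maximizers it is the
least one in the order of the candidates. -/
def IsOutcome (α : Fin n → ℝ) (E : Election n k) (A : (i : Fin k) → Fin n → Set (E.C i))
    (w : (i : Fin k) → E.C i) : Prop :=
  ∀ i : Fin k, ∀ c : E.C i, score α A w i c < score α A w i (w i) ∨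
    (score α A w i c = score α A w i (w i) ∧ w i ≤ c)

/-- An OWA rule: a family of vectors `αⁿ` with nonnegative entries, the first one positive. -/
structure OWARule where
  /-- the vectors -/
  α : (n : ℕ) → Fin n → ℝ
  nonneg : ∀ n j, 0 ≤ α n j
  pos : ∀ n (h : 0 < n), 0 < α n ⟨0, h⟩

/-- Free-riding is never harmful under the rule `R`: whenever `w` is the outcome for the true
ballots, `A'` differs from the true ballots only in the ballot of the voter `v` on the issue `i`,
`w i` is approved by `v` in the true ballots and not in `A'`, `w'` is the outcome for `A'`, and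
`w' i = w i`, then the satisfaction of `v` with `w'` (for the true ballots) is not less than with
`w`. -/
def NeverHarmful (R : OWARule) : Prop :=
  ∀ (n k : ℕ) (E : Election n k) (v : Fin n) (i : Fin k)
    (A' : (i : Fin k) → Fin n → Set (E.C i)) (w w' : (i : Fin k) → E.C i),
    (∀ j u, (j ≠ i ∨ u ≠ v) → A' j u = E.A j u) →
    IsOutcome (R.α n) E E.A w → IsOutcome (R.α n) E A' w' →
    w i ∈ E.A i v → w i ∉ A' i v → w' i = w i → sat E.A w v ≤ sat E.A w' v

/-! ## Outcomes exist and are unique -/

theorem satUpTo_congr {C : Fin k → Type} {A A' : (i : Fin k) → Fin n → Set (C i)}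
    {w w' : (i : Fin k) → C i} {t : ℕ} (h : ∀ j : Fin k, (j : ℕ) < t → w j = w' j)
    {v : Fin n} (hA : ∀ j : Fin k, (j : ℕ) < t → A j v = A' j v) :
    satUpTo A w t v = satUpTo A' w' t v := by
  classical
  unfold satUpTo
  congr 1
  ext j
  simp only [mem_filter, mem_univ, true_and]
  constructor
  · rintro ⟨h1, h2⟩
    exact ⟨h1, by rw [← h j h1, ← hA j h1]; exact h2⟩
  · rintro ⟨h1, h2⟩
    exact ⟨h1, by rw [h j h1, hA j h1]; exact h2⟩

theorem score_congr (α : Fin n → ℝ) {C : Fin k → Type} {A A' : (i : Fin k) → Fin n → Set (C i)}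
    {w w' : (i : Fin k) → C i} {i : Fin k} (h : ∀ j : Fin k, j < i → w j = w' j)
    (hA : ∀ j : Fin k, j ≤ i → A j = A' j) (c : C i) : score α A w i c = score α A' w' i c := by
  classical
  unfold score
  congr 1
  funext v
  rw [satUpTo_congr (fun j hj => h j hj) (fun j hj => by rw [hA j (le_of_lt hj)]), hA i le_rfl]

theorem choice_unique {X : Type} [LinearOrder X] (f g : X → ℝ) (a b : X)
    (hfg : ∀ c d, f c < f d ↔ g c < g d) (ha : ∀ c, f c < f a ∨ (f c = f a ∧ a ≤ c))
    (hb : ∀ c, g c < g b ∨ (g c = g b ∧ b ≤ c)) : a = b := by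
  have h1 := ha b
  have h2 := hb a
  rcases h1 with h1 | ⟨h1, h1'⟩
  · rcases h2 with h2 | ⟨h2, h2'⟩
    · exact absurd ((hfg _ _).2 h2) (not_lt.2 h1.le)
    · exact absurd ((hfg _ _).1 h1) (by rw [h2]; exact lt_irrefl _)
  · rcases h2 with h2 | ⟨h2, h2'⟩
    · exact absurd ((hfg _ _).2 h2) (by rw [h1]; exact lt_irrefl _)
    · exact le_antisymm h1' h2'

theorem agree_upto (α : Fin n → ℝ) (E : Election n k) {A A' : (i : Fin k) → Fin n → Set (E.C i)}
    {w w' : (i : Fin k) → E.C i} (hw : IsOutcome α E A w) (hw' : IsOutcome α E A' w')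
    (t : ℕ) (hA : ∀ j : Fin k, (j : ℕ) < t → A j = A' j) :
    ∀ m : ℕ, ∀ j : Fin k, (j : ℕ) = m → m < t → w j = w' j := by
  intro m
  induction m using Nat.strong_induction_on with
  | _ m ih =>
    intro j hj hm
    have h1 : ∀ c, score α A w j c = score α A' w' j c := fun c =>
      score_congr α (fun i hi => ih i (by rw [← hj]; exact hi) i rfl
        (lt_trans (by rw [← hj]; exact hi) hm))
        (fun i hi => hA i (lt_of_le_of_lt (by rw [← hj]; exact hi) hm)) c
    exact choice_unique (score α A w j) (score α A' w' j) _ _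
      (fun c d => by rw [h1, h1]) (hw j) (hw' j)

theorem outcome_unique (α : Fin n → ℝ) (E : Election n k) {A : (i : Fin k) → Fin n → Set (E.C i)}
    {w w' : (i : Fin k) → E.C i} (hw : IsOutcome α E A w) (hw' : IsOutcome α E A w') : w = w' :=
  funext fun j => agree_upto α E hw hw' k (fun _ _ => rfl) j j rfl j.2

theorem exists_choice {X : Type} [Fintype X] [Nonempty X] [LinearOrder X] (f : X → ℝ) :
    ∃ a : X, ∀ c, f c < f a ∨ (f c = f a ∧ a ≤ c) := by
  classical
  obtain ⟨m, hm⟩ := Finite.exists_max f
  have hne : (univ.filter fun x => f x = f m).Nonempty := ⟨m, by simp⟩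
  refine ⟨(univ.filter fun x => f x = f m).min' hne, fun c => ?_⟩
  have h1 := (mem_filter.1 ((univ.filter fun x => f x = f m).min'_mem hne)).2
  rw [h1]
  rcases (hm c).lt_or_eq with h | h
  · exact Or.inl h
  · exact Or.inr ⟨h, Finset.min'_le _ _ (by simp [h])⟩

/-- Outcomes exist. -/
theorem exists_outcome (α : Fin n → ℝ) (E : Election n k)
    (A : (i : Fin k) → Fin n → Set (E.C i)) : ∃ w, IsOutcome α E A w := by
  classical
  have key : ∀ t : ℕ, t ≤ k → ∃ w : (i : Fin k) → E.C i, ∀ i : Fin k, (i : ℕ) < t →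
      ∀ c : E.C i, score α A w i c < score α A w i (w i) ∨
        (score α A w i c = score α A w i (w i) ∧ w i ≤ c) := by
    intro t
    induction t with
    | zero => exact fun _ => ⟨fun i => Classical.arbitrary _, fun i hi => absurd hi (by omega)⟩
    | succ t ih =>
      intro ht
      obtain ⟨w, hw⟩ := ih (by omega)
      obtain ⟨a, ha⟩ := exists_choice (score α A w ⟨t, ht⟩)
      have e1 : ∀ i : Fin k, (i : ℕ) < t →
          Function.update w ⟨t, ht⟩ a i = w i := fun i hi =>
        Function.update_of_ne (fun h => by rw [h] at hi; simp at hi) _ _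
      refine ⟨Function.update w ⟨t, ht⟩ a, fun i hi c => ?_⟩
      have e2 : ∀ c, score α A (Function.update w ⟨t, ht⟩ a) i c = score α A w i c := fun c =>
        score_congr α (fun j hj => e1 j (by
          have h3 : (j : ℕ) < i := hj
          omega)) (fun _ _ => rfl) c
      rw [e2, e2]
      rcases Nat.lt_succ_iff_lt_or_eq.1 hi with h | h
      · rw [e1 i h]
        exact hw i h c
      · have h' : i = ⟨t, ht⟩ := Fin.ext h
        subst h'
        rw [Function.update_self]
        exact ha c
  obtain ⟨w, hw⟩ := key k le_rfl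
  exact ⟨w, fun i => hw i i.2⟩

/-! ## Constant weights -/

theorem owa_const (a : ℝ) (f : Fin n → ℕ) : owa (fun _ => a) f = a * ∑ v, (f v : ℝ) := by
  unfold owa
  rw [← Finset.mul_sum, Equiv.sum_comp (Tuple.sort f) (fun v => (f v : ℝ))]

open Classical in
theorem score_const (a : ℝ) {C : Fin k → Type} (A : (i : Fin k) → Fin n → Set (C i))
    (w : (i : Fin k) → C i) (i : Fin k) (c : C i) : score (fun _ => a) A w i c =
      a * ∑ v, (satUpTo A w i v : ℝ) + a * ∑ v, (if c ∈ A i v then (1 : ℝ) else 0) := by
  unfold score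
  rw [owa_const, ← mul_add, ← Finset.sum_add_distrib]
  congr 1
  exact Finset.sum_congr rfl fun v _ => by push_cast; rfl

theorem const_harmless (a : ℝ) (E : Election n k) (v : Fin n) (i : Fin k)
    (A' : (i : Fin k) → Fin n → Set (E.C i)) (w w' : (i : Fin k) → E.C i)
    (hA : ∀ j u, (j ≠ i ∨ u ≠ v) → A' j u = E.A j u)
    (hw : IsOutcome (fun _ => a) E E.A w) (hw' : IsOutcome (fun _ => a) E A' w')
    (hi : w' i = w i) : w' = w := by
  classical
  funext j
  by_cases hj : j = i
  · subst hj; exact hi
  · have h1 : ∀ c d, score (fun _ => a) A' w' j c < score (fun _ => a) A' w' j d ↔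
        score (fun _ => a) E.A w j c < score (fun _ => a) E.A w j d := by
      intro c d
      rw [score_const, score_const, score_const, score_const]
      have h2 : ∀ c, ∑ v, (if c ∈ A' j v then (1 : ℝ) else 0) =
          ∑ v, (if c ∈ E.A j v then (1 : ℝ) else 0) := fun c =>
        Finset.sum_congr rfl fun u _ => by rw [hA j u (Or.inl hj)]
      rw [h2, h2]
      constructor <;> intro h <;> linarith
    exact choice_unique _ _ _ _ h1 (hw' j) (hw j)

/-! ## Two voters -/

theorem owa_two (c : ℝ) (f : Fin 2 → ℕ) (v u : Fin 2) (huv : u ≠ v) :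
    owa (![1, c] : Fin 2 → ℝ) f = min (f v : ℝ) (f u) + c * max (f v : ℝ) (f u) := by
  have h0 : owa (![1, c] : Fin 2 → ℝ) f = min (f 0 : ℝ) (f 1) + c * max (f 0 : ℝ) (f 1) := by
    unfold owa
    rw [Fin.sum_univ_two]
    simp only [Matrix.cons_val_zero, Matrix.cons_val_one, one_mul]
    have hm : (f (Tuple.sort f 0) : ℝ) ≤ f (Tuple.sort f 1) := by
      exact_mod_cast Tuple.monotone_sort f (by simp : (0 : Fin 2) ≤ 1)
    have hne : Tuple.sort f 0 ≠ Tuple.sort f 1 := fun h => by
      have := (Tuple.sort f).injective h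
      simp at this
    have h01 : ∀ x : Fin 2, x = 0 ∨ x = 1 := by decide
    rcases h01 (Tuple.sort f 0) with h | h <;> rcases h01 (Tuple.sort f 1) with h' | h'
    · exact absurd (h.trans h'.symm) hne
    · rw [h, h'] at hm ⊢
      rw [min_eq_left hm, max_eq_right hm]
    · rw [h, h'] at hm ⊢
      rw [min_eq_right hm, max_eq_left hm]
    · exact absurd (h.trans h'.symm) hne
  rw [h0]
  have h01 : ∀ x : Fin 2, x = 0 ∨ x = 1 := by decide
  rcases h01 v with rfl | rfl <;> rcases h01 u with rfl | rfl
  · exact absurd rfl huv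
  · rfl
  · rw [min_comm, max_comm]
  · exact absurd rfl huv

theorem satUpTo_succ {C : Fin k → Type} (A : (i : Fin k) → Fin n → Set (C i))
    (w : (i : Fin k) → C i) (i : Fin k) (v : Fin n) [Decidable (w i ∈ A i v)] :
    satUpTo A w (i + 1) v = satUpTo A w i v + if w i ∈ A i v then 1 else 0 := by
  classical
  unfold satUpTo
  split_ifs with h
  · have : (univ.filter fun j : Fin k => (j : ℕ) < i + 1 ∧ w j ∈ A j v) =
        insert i (univ.filter fun j : Fin k => (j : ℕ) < i ∧ w j ∈ A j v) := by
      ext j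
      simp only [mem_filter, mem_univ, true_and, mem_insert]
      constructor
      · rintro ⟨h1, h2⟩
        rcases Nat.lt_succ_iff_lt_or_eq.1 h1 with h3 | h3
        · exact Or.inr ⟨h3, h2⟩
        · exact Or.inl (Fin.ext h3)
      · rintro (rfl | ⟨h1, h2⟩)
        · exact ⟨Nat.lt_succ_self _, h⟩
        · exact ⟨by omega, h2⟩
    rw [this, card_insert_of_notMem (by simp)]
  · rw [add_zero]
    congr 1
    ext j
    simp only [mem_filter, mem_univ, true_and]
    constructor
    · rintro ⟨h1, h2⟩
      rcases Nat.lt_succ_iff_lt_or_eq.1 h1 with h3 | h3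
      · exact ⟨h3, h2⟩
      · have := Fin.ext h3
        subst this
        exact absurd h2 h
    · rintro ⟨h1, h2⟩
      exact ⟨by omega, h2⟩

/-- The states of the two runs. -/
def State (x y x' y' : ℕ) : Prop := (x' + 1 = x ∧ y' = y) ∨ (x' = x ∧ y' + 1 = y)

/-- The score of a pair of satisfactions. -/
noncomputable def F (c : ℝ) (a b : ℕ) : ℝ := min (a : ℝ) b + c * max (a : ℝ) b

theorem F_le {c : ℝ} {a b : ℕ} (h : a ≤ b) : F c a b = a + c * b := by
  have h' : (a : ℝ) ≤ b := by exact_mod_cast h
  rw [F, min_eq_left h', max_eq_right h']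

theorem F_ge {c : ℝ} {a b : ℕ} (h : b ≤ a) : F c a b = b + c * a := by
  have h' : (b : ℝ) ≤ a := by exact_mod_cast h
  rw [F, min_eq_right h', max_eq_left h']

theorem F_left {c : ℝ} (hc0 : 0 < c) (a b : ℕ) : F c a b < F c (a + 1) b := by
  rcases Nat.lt_or_ge a b with h | h
  · rw [F_le h.le, F_le (by omega)]; push_cast; linarith
  · rw [F_ge h, F_ge (by omega)]; push_cast; linarith

theorem F_right {c : ℝ} (hc0 : 0 < c) (a b : ℕ) : F c a b < F c a (b + 1) := by
  rcases Nat.lt_or_ge b a with h | h
  · rw [F_ge h.le, F_ge (by omega)]; push_cast; linarith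
  · rw [F_le h, F_le (by omega)]; push_cast; linarith

theorem F_cmp {c : ℝ} (hc1 : c < 1) {a b : ℕ} (h : F c a (b + 1) ≤ F c (a + 1) b) : a ≤ b := by
  by_contra hlt
  rw [not_le] at hlt
  rw [F_ge (by omega : b + 1 ≤ a), F_ge (by omega : b ≤ a + 1)] at h
  push_cast at h
  linarith

theorem F_cmp' {c : ℝ} (hc1 : c < 1) {a b : ℕ} (h : F c (a + 1) b ≤ F c a (b + 1)) : b ≤ a := by
  by_contra hlt
  rw [not_le] at hlt
  rw [F_le (by omega : a + 1 ≤ b), F_le (by omega : a ≤ b + 1)] at h
  push_cast at h
  linarith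

theorem step {c : ℝ} (hc0 : 0 < c) (hc1 : c < 1) {x y x' y' p q p' q' : ℕ}
    (h : State x y x' y') (hp : p = 0 ∨ p = 1) (hq : q = 0 ∨ q = 1) (hp' : p' = 0 ∨ p' = 1)
    (hq' : q' = 0 ∨ q' = 1)
    (h1 : F c (x + p') (y + q') ≤ F c (x + p) (y + q))
    (h2 : F c (x' + p) (y' + q) ≤ F c (x' + p') (y' + q')) :
    State (x + p) (y + q) (x' + p') (y' + q') := by
  have a1 := F_left hc0 x y
  have a2 := F_right hc0 x y
  have a3 := F_left hc0 x (y + 1)
  have a4 := F_right hc0 (x + 1) y
  have b1 := F_left hc0 x' y'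
  have b2 := F_right hc0 x' y'
  have b3 := F_left hc0 x' (y' + 1)
  have b4 := F_right hc0 (x' + 1) y'
  have c1 : F c x (y + 1) ≤ F c (x + 1) y → x ≤ y := F_cmp hc1
  have c2 : F c (x + 1) y ≤ F c x (y + 1) → y ≤ x := F_cmp' hc1
  have d1 : F c x' (y' + 1) ≤ F c (x' + 1) y' → x' ≤ y' := F_cmp hc1
  have d2 : F c (x' + 1) y' ≤ F c x' (y' + 1) → y' ≤ x' := F_cmp' hc1
  unfold State at h ⊢
  rcases hp with rfl | rfl <;> rcases hq with rfl | rfl <;> rcases hp' with rfl | rfl <;>
    rcases hq' with rfl | rfl <;> (try simp only [add_zero] at h1 h2 ⊢)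
  · omega
  · exfalso; linarith
  · exfalso; linarith
  · exfalso; linarith
  · exfalso; linarith
  · omega
  · have e1 := c2 h1
    have e2 := d1 h2
    omega
  · exfalso; linarith
  · exfalso; linarith
  · have e1 := c1 h1
    have e2 := d2 h2
    omega
  · omega
  · exfalso; linarith
  · exfalso; linarith
  · exfalso; linarith
  · exfalso; linarith
  · omega

open Classical in
theorem score_two (c : ℝ) {C : Fin k → Type} (A : (i : Fin k) → Fin 2 → Set (C i))
    (w : (i : Fin k) → C i) (i : Fin k) (a : C i) (v u : Fin 2) (huv : u ≠ v) :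
    score (![1, c] : Fin 2 → ℝ) A w i a =
      F c (satUpTo A w i v + if a ∈ A i v then 1 else 0)
        (satUpTo A w i u + if a ∈ A i u then 1 else 0) := by
  unfold score
  rw [owa_two c _ v u huv]
  rfl

theorem two_harmless {c : ℝ} (hc0 : 0 < c) (hc1 : c < 1) (E : Election 2 k) (v : Fin 2)
    (i : Fin k) (A' : (i : Fin k) → Fin 2 → Set (E.C i)) (w w' : (i : Fin k) → E.C i)
    (hA : ∀ j u, (j ≠ i ∨ u ≠ v) → A' j u = E.A j u)
    (hw : IsOutcome (![1, c] : Fin 2 → ℝ) E E.A w)
    (hw' : IsOutcome (![1, c] : Fin 2 → ℝ) E A' w')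
    (h1 : w i ∈ E.A i v) (h2 : w i ∉ A' i v) (hi : w' i = w i) :
    sat E.A w v ≤ sat E.A w' v := by
  classical
  obtain ⟨u, huv⟩ : ∃ u : Fin 2, u ≠ v := exists_ne v
  have hAi : ∀ j : Fin k, (j : ℕ) < i → E.A j = A' j := fun j hj => by
    funext z
    exact (hA j z (Or.inl (fun h => by rw [h] at hj; exact lt_irrefl _ hj))).symm
  have hpre : ∀ j : Fin k, (j : ℕ) < i → w j = w' j := fun j hj =>
    agree_upto _ E hw hw' i hAi j j rfl hj
  -- the two runs after the issue `i`
  have hbase : State (satUpTo E.A w (i + 1) v) (satUpTo E.A w (i + 1) u)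
      (satUpTo A' w' (i + 1) v) (satUpTo A' w' (i + 1) u) := by
    rw [satUpTo_succ, satUpTo_succ, satUpTo_succ, satUpTo_succ,
      satUpTo_congr (w := w) (w' := w') hpre (A := E.A) (A' := A') (v := v)
        (fun j hj => by rw [hAi j hj]),
      satUpTo_congr (w := w) (w' := w') hpre (A := E.A) (A' := A') (v := u)
        (fun j hj => by rw [hAi j hj]), hi, if_pos h1, if_neg h2, hA i u (Or.inr huv)]
    exact Or.inl ⟨by omega, rfl⟩
  have hstate : ∀ t : ℕ, (i : ℕ) + 1 ≤ t → t ≤ k →
      State (satUpTo E.A w t v) (satUpTo E.A w t u) (satUpTo A' w' t v) (satUpTo A' w' t u) := by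
    intro t ht
    induction t, ht using Nat.le_induction with
    | base => exact fun _ => hbase
    | succ t ht ih =>
      intro hk
      have hS := ih (by omega)
      have hne : (⟨t, hk⟩ : Fin k) ≠ i := fun h => by
        have := congrArg Fin.val h
        simp only at this
        omega
      have e1 := satUpTo_succ E.A w ⟨t, hk⟩ v
      have e2 := satUpTo_succ E.A w ⟨t, hk⟩ u
      have e3 := satUpTo_succ A' w' ⟨t, hk⟩ v
      have e4 := satUpTo_succ A' w' ⟨t, hk⟩ u
      simp only at e1 e2 e3 e4
      rw [e1, e2, e3, e4]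
      have f1 : score (![1, c] : Fin 2 → ℝ) E.A w ⟨t, hk⟩ (w' ⟨t, hk⟩) ≤
          score (![1, c] : Fin 2 → ℝ) E.A w ⟨t, hk⟩ (w ⟨t, hk⟩) := by
        rcases hw ⟨t, hk⟩ (w' ⟨t, hk⟩) with h | h
        · exact h.le
        · exact h.1.le
      have f2 : score (![1, c] : Fin 2 → ℝ) A' w' ⟨t, hk⟩ (w ⟨t, hk⟩) ≤
          score (![1, c] : Fin 2 → ℝ) A' w' ⟨t, hk⟩ (w' ⟨t, hk⟩) := by
        rcases hw' ⟨t, hk⟩ (w ⟨t, hk⟩) with h | h
        · exact h.le
        · exact h.1.le
      rw [score_two c _ _ _ _ v u huv, score_two c _ _ _ _ v u huv] at f1 f2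
      rw [hA _ v (Or.inl hne), hA _ u (Or.inl hne)] at f2 ⊢
      simp only at f1 f2 ⊢
      refine step hc0 hc1 hS ?_ ?_ ?_ ?_ f1 f2
      · split_ifs <;> simp
      · split_ifs <;> simp
      · split_ifs <;> simp
      · split_ifs <;> simp
  -- the true satisfaction in the second run
  have htrue : ∀ t : ℕ, (i : ℕ) + 1 ≤ t → t ≤ k →
      satUpTo E.A w' t v = satUpTo A' w' t v + 1 := by
    intro t ht
    induction t, ht using Nat.le_induction with
    | base =>
      intro _
      rw [satUpTo_succ, satUpTo_succ, hi, if_pos h1, if_neg h2,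
        satUpTo_congr (w := w') (w' := w') (fun _ _ => rfl) (A := E.A) (A' := A') (v := v)
          (fun j hj => by rw [hAi j hj])]
    | succ t ht ih =>
      intro hk
      have hne : (⟨t, hk⟩ : Fin k) ≠ i := fun h => by
        have := congrArg Fin.val h
        simp only at this
        omega
      have e1 := satUpTo_succ E.A w' ⟨t, hk⟩ v
      have e3 := satUpTo_succ A' w' ⟨t, hk⟩ v
      simp only at e1 e3
      rw [e1, e3, hA _ v (Or.inl hne), ih (by omega)]
      omega
  have g1 := hstate k i.2 le_rfl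
  have g2 := htrue k i.2 le_rfl
  unfold sat
  rw [g2]
  rcases g1 with g1 | g1 <;> omega

/-- The rule with `α² = (1, c)` and `αⁿ` constant for all `n ≠ 2`. -/
noncomputable def rule (c : ℝ) (hc : 0 ≤ c) : OWARule where
  α n := if h : n = 2 then h ▸ (![1, c] : Fin 2 → ℝ) else fun _ => 1
  nonneg n j := by
    by_cases h : n = 2
    · subst h
      simp only [dite_true]
      fin_cases j
      · simp
      · simpa using hc
    · simp [h]
  pos n h0 := by
    by_cases h : n = 2
    · subst h
      simp
    · simp [h]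

/-- **Free-riding is never harmful under some non-utilitarian sequential OWA rules.** For every
`0 < c < 1` the rule with `α² = (1, c)` and `αⁿ = (1, …, 1)` for `n ≠ 2` is never harmful; the vector
`α²` is not constant. Moreover, for every OWA vector, election and ballots there is exactly one
outcome. -/
theorem result :
    (∃ R : OWARule, (∃ n, ∃ i j : Fin n, R.α n i ≠ R.α n j) ∧ NeverHarmful R) ∧
    (∀ (c : ℝ) (hc : 0 < c), c < 1 → (rule c hc.le).α 2 = ![1, c] ∧
      (∀ n, n ≠ 2 → (rule c hc.le).α n = fun _ => 1) ∧ NeverHarmful (rule c hc.le)) ∧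
    (∀ (n k : ℕ) (α : Fin n → ℝ) (E : Election n k) (A : (i : Fin k) → Fin n → Set (E.C i)),
      ∃! w, IsOutcome α E A w) := by
  have h2 : ∀ (c : ℝ) (hc : 0 < c), c < 1 → (rule c hc.le).α 2 = ![1, c] ∧
      (∀ n, n ≠ 2 → (rule c hc.le).α n = fun _ => 1) ∧ NeverHarmful (rule c hc.le) := by
    intro c hc hc1
    have e1 : (rule c hc.le).α 2 = ![1, c] := by simp [rule]
    have e2 : ∀ n, n ≠ 2 → (rule c hc.le).α n = fun _ => 1 := fun n hn => by simp [rule, hn]
    refine ⟨e1, e2, ?_⟩
    intro n k E v i A' w w' hA hw hw' h1 h2 hi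
    by_cases hn : n = 2
    · subst hn
      rw [e1] at hw hw'
      exact two_harmless hc hc1 E v i A' w w' hA hw hw' h1 h2 hi
    · rw [e2 n hn] at hw hw'
      rw [const_harmless 1 E v i A' w w' hA hw hw' hi]
  refine ⟨⟨rule (1 / 2) (by norm_num), ⟨2, 0, 1, ?_⟩, (h2 (1 / 2) (by norm_num) (by norm_num)).2.2⟩,
    h2, fun n k α E A => ?_⟩
  · rw [(h2 (1 / 2) (by norm_num) (by norm_num)).1]
    norm_num
  · obtain ⟨w, hw⟩ := exists_outcome α E A
    exact ⟨w, hw, fun w' hw' => outcome_unique α E hw' hw⟩

end Pool.Agent.Results.MP_57045c_lc.TwoVotersNeverHarmful
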